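import Pool.Agent.H32.CutRes

set_option autoImplicit false

namespace Pool.Agent.Results.MP_7f396f_pr.NoCutoff

open Filter Topology Pool.Agent.H32.Cut

noncomputable section

/-- Transition matrix of the simple random walk on the undirected Cayley graph `G(Z)`, which has an
edge `{g, g z}` for each `g ∈ G`, `z ∈ Z` (multiple edges counted): from `x` the `2 |Z|` edges go to
`x z` and to `x z⁻¹`, `z ∈ Z`. -/
def srw {G : Type} [Group G] [DecidableEq G] (Z : Finset G) : Matrix G G ℝ :=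
  Matrix.of fun x y => (((Z.filter fun z => y = x * z).card : ℝ) + (Z.filter fun z => x = y * z).card) /
    (2 * Z.card)

/-- `t_mix(ε)`: the least `t` with `max_x ‖P^t(x,·) - uniform‖_TV ≤ ε`. -/
def tmix {V : Type} [Fintype V] [DecidableEq V] (P : Matrix V V ℝ) (ε : ℝ) : ℕ :=
  sInf {t : ℕ | ∀ x, 1 / 2 * ∑ y, |(P ^ t) x y - 1 / (Fintype.card V : ℝ)| ≤ ε}

/-- Second largest eigenvalue of a symmetric stochastic matrix: the largest eigenvalue having an
eigenvector orthogonal to the constants. -/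
def lam2 {V : Type} [Fintype V] (P : Matrix V V ℝ) : ℝ :=
  sSup {c : ℝ | ∃ f : V → ℝ, f ≠ 0 ∧ ∑ x, f x = 0 ∧ P.mulVec f = c • f}

lemma card_eq {G : Type} [AddCommGroup G] [DecidableEq G] (S : Finset G) (x y : G) :
    ((S.filter fun z => y = x + z).card : ℝ) = if y - x ∈ S then 1 else 0 := by
  have e : ∀ z : G, y = x + z ↔ z = y - x := fun z => by
    rw [eq_sub_iff_add_eq', eq_comm]
  simp only [e, Finset.filter_eq']
  split_ifs <;> simp

lemma walk_eq {G : Type} [AddCommGroup G] [DecidableEq G] (S : Finset G) (hn : ∀ s ∈ S, -s ∈ S) :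
    @srw G (Multiplicative.group (α := G)) _ S = M (lz 0 S) := by
  ext a b
  have e : a - b ∈ S ↔ b - a ∈ S :=
    ⟨fun h => by simpa using hn _ h, fun h => by simpa using hn _ h⟩
  change (((S.filter fun z => b = a + z).card : ℝ) + (S.filter fun z => a = b + z).card) /
    (2 * S.card) = lz 0 S (b - a)
  simp only [card_eq, e, lz, unif]
  split_ifs <;> ring

theorem result :
    ∃ (G : ℕ → Type) (_ : ∀ n, Group (G n)) (_ : ∀ n, Fintype (G n))
      (_ : ∀ n, DecidableEq (G n)) (Z : ∀ n, Finset (G n)),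
      (∀ n, Group.IsNilpotent (G n) ∧ Group.nilpotencyClass (G n) ≤ 1) ∧
      (∀ n, 1 ∉ Z n) ∧
      (∀ n x y, 0 < (srw (Z n) ^ 2) x y ∧ 0 < (srw (Z n) ^ 3) x y) ∧
      (∀ n (c : ℝ) (f : G n → ℝ), f ≠ 0 → ∑ x, f x = 0 → (srw (Z n)).mulVec f = c • f →
        |c| ≤ 3 / 4) ∧
      Tendsto (fun n => (tmix (srw (Z n)) (1 / 4) : ℝ) * (1 - lam2 (srw (Z n)))) atTop atTop ∧
      (∀ n, 1 ≤ tmix (srw (Z n)) (1 - 1 / 200) ∧
        2 * tmix (srw (Z n)) (1 - 1 / 200) ≤ tmix (srw (Z n)) (1 / 200)) ∧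
      ¬ Tendsto (fun n => (tmix (srw (Z n)) (1 / 200) : ℝ) / tmix (srw (Z n)) (1 - 1 / 200))
        atTop (𝓝 1) := by
  choose G i1 i2 i3 S h0 _ hn hP using fun n : ℕ => exists_pak (n + 201) (by omega)
  have P0 := fun n => hP n 0 le_rfl (by norm_num)
  have key : ∀ n, 1 ≤ tm (M (lz 0 (S n))) (1 - 1 / 200) ∧
      2 * tm (M (lz 0 (S n))) (1 - 1 / 200) ≤ tm (M (lz 0 (S n))) (1 / 200) := fun n => by
    have a := (P0 n).tm_up (by omega)
    have b := (P0 n).tm_low (by omega) (ε := 1 / 200) (by norm_num) (by norm_num)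
    omega
  refine ⟨G, fun n => Multiplicative.group (α := G n), i2, i3, S,
    fun n => ⟨CommGroup.isNilpotent (G := Multiplicative (G n)),
      CommGroup.nilpotencyClass_le_one (G := Multiplicative (G n))⟩, h0, ?_⟩
  simp only [fun n => walk_eq (S n) (hn n)]
  refine ⟨fun n x y => ⟨?_, ?_⟩, fun n c f h1 h2 h3 => (P0 n).eig (f := f) h1 h2 h3, ?_, key, no_cut key⟩
  · exact ((P0 n).pos (by omega) _).trans_eq (M_pow (lz 0 (S n)) 2 x y).symm
  · refine lt_of_lt_of_le ?_ (((P0 n).up 2 1 _).trans_eq (M_pow (lz 0 (S n)) 3 x y).symm)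
    simp only [pow_one, sub_sub_cancel]
    positivity
  · have := prod_cond (a := fun n => tm (M (lz 0 (S n))) (1 / 4)) (fun n => ?_) fun n => (P0 n).l2_le
    · simp only [div_div_eq_mul_div, div_one] at this
      exact this
    · have b := (P0 n).tm_low (by omega) (ε := 1 / 4) (by norm_num) (by norm_num)
      exact le_trans (by omega) b.le

end

end Pool.Agent.Results.MP_7f396f_pr.NoCutoff
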